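import Pool.Agent.Q171.KV.Art

/-!
The rational assembly maps in higher algebraic K-theory, with arbitrary coefficient rings, on the
homology of the complexes of extensions by pure Artin groups.

`M` is any Coxeter matrix of finite rank (`0` stands for `∞`), `W` its Coxeter group, `Artin M` its
Artin group, `Γ` any group and `φ : Γ → W` any homomorphism. `G = FG cs φ` is the fibre product of
`Artin M` and `Γ` over `W`, an extension of `Γ` by the pure Artin group, the kernel of `Artin M → W`;
`Γ = W` gives the Artin group, `Γ = 1` the pure Artin group.

The Salvetti complex is the ordered set of the pairs `(w, ρ)`, `ρ` a coset of a finite standard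
parabolic subgroup of `W` and `w ∈ ρ`, with `(w, ρ) ≥ (v, σ)` if `σ ⊆ ρ` and `v` is the element of `σ` next
to `w` (`LeS`). Up to homotopy it is the complement of the complexified reflection arrangement. `X` is
the quotient by `Γ` of its product with the full simplex on the set `Γ` (the homotopy quotient); its
simplices are the sequences of triples `(γ, w, ρ)` with `γ = 1` for the first one whose pairs `(w, ρ)` are
a chain (`SxG`). Its fundamental group is `G`, and it is a classifying space of `G` if `M` satisfies the
`K(π, 1)` conjecture. The map from `X` to the classifying space of `G` is given by the labels `edg` of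
the edges. `RepG cs φ n z x` says that `z` is a rational `n`-cycle of `X` and `x` is the image of its
class in `H_n(G; ℚ)`. `BdG cs φ n z` says that `z` is a boundary.

`KVz ℚ n A` is `ℚ ⊗ KV_{n+1}(A)`, where `KV_m(A)`, `m ≥ 1`, is the K-theory of Karoubi and Villamayor
of the ring `A`: it has the generators `[u]` for the invertible matrices `u` over `A[X₁, …, X_n]`
which are congruent to the identity modulo the ideal of the `n`-fold loops (the polynomials which
vanish if some `X_i` is `0` or `1`), and the relations `[u v] = [u] + [v]`, `[u'] = [u]` for the
stabilizations `u'` of `u`, and `[h(1)] = 0` for the invertible matrices `h` over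
`A[t][X₁, …, X_n]` congruent to the identity modulo this ideal with `h(0) = 1`. There are natural maps
`K_m(A) → KV_m(A)`, which are isomorphisms if `A` is regular. `kvQ S n` is the functor
`G ↦ ℚ ⊗ KV_{n+1}(S[G])`, `S` is an arbitrary ring, and `α_i : H_{d(i)}(G; ℚ) → ℚ ⊗ KV_{n+1}(S[G])`,
`i ∈ I`, is any family of transformations natural in the group `G`; the rational assembly map
`H_m(BG; K(S)) ⊗ ℚ → K_m(S[G]) ⊗ ℚ → KV_m(S[G]) ⊗ ℚ`, `S` regular, is such a family, indexed by bases of
the `K_{m-j}(S) ⊗ ℚ`.

If the sum of the `α_i` is injective for the groups `ℤ^σ × φ⁻¹(C_W(σ))`, `σ` a finite set of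
reflections with centralizer `C_W(σ)`, then it is injective on `⨁_i H_{d(i)}(X; ℚ)`. No asphericity is
assumed. For `Γ = W` these groups are subgroups of Coxeter groups times `ℤ^k`, which satisfy the
Farrell–Jones conjecture.

The new ingredient is a transfer for the functors `KV_m(S[-])`: for an action of `G` on a set `A` and
two cocycles `c, d : G × A → K` which agree outside finite sets, an invertible matrix `u` over `S[G]`
acts in two ways on the free module with basis `A` over `S[K]`, by the monomial matrices of `c` and
of `d`, and the ratio of these two infinite matrices differs from the identity in finitely many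
entries. The class of this finite matrix is additive in `u` since it does not change under the
conjugation by an infinite matrix.
-/

namespace Pool.Agent.Results.MP_c052b4_al.ArtinComplexes

open CategoryTheory Pool.Agent.Y483 Pool.Agent.Y75.MQ Pool.Agent.Q171.SV Pool.Agent.Q171.KV

theorem result {B : Type} [Fintype B] [DecidableEq B] {M : CoxeterMatrix B} {W : Type} [Group W]
    (cs : CoxeterSystem M W) {Γ : Type} [Group Γ] (φ : Γ →* W) (S : Type) [Ring S] (n : ℕ)
    {I : Type} {d : I → ℕ} (α : ∀ i : I, hq (d i) ⟶ kvQ S n)
    (h : ∀ σ : Finset W, (∀ t ∈ σ, cs.IsReflection t) → kerFam α (GrpCat.of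
      (Multiplicative (σ → ℤ) × (Subgroup.centralizer (σ : Set W)).comap φ)) = ⊥)
    (F : Finset I) (z : ∀ i, (Fin (d i + 1) → Γ × W × Set W) →₀ ℚ)
    (x : ∀ i, (hq (d i)).obj (FP cs φ)) (hz : ∀ i ∈ F, RepG cs φ (d i) (z i) (x i))
    (h0 : ∑ i ∈ F, ((α i).app (FP cs φ)).hom (x i) = 0) : ∀ i ∈ F, BdG cs φ (d i) (z i) :=
  mainZ cs φ (hasPT_kv S n) α h F z x hz h0

end Pool.Agent.Results.MP_c052b4_al.ArtinComplexes
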