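import Pool.Agent.Q184.FJE.Top

/-!
# Kernels on which conjugations are, locally, endomorphisms with a realized mapping torus

`C` is any class of groups with the closure properties `ClosedE C` and `D` any class which is closed
under subgroups and satisfies the extension principle over `C` (`ClosedOver C D`); `D = C` is
possible. All these properties are known for the class of the groups that satisfy the Full
Farrell–Jones Conjecture (for its torsion-free members and regular rings the assembly maps are
isomorphisms).

Let `K` be normal in `G` with `G ⧸ K` in `D`. By the usual criterion one has to realize the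
conjugation by `g` on finitely many elements of `K` in a group in `C`. It is replaced here by
endomorphisms, which need not be injective and need not be compatible for different finite subsets,
and the stable letter of an HNN extension is used, of a group in `C` along an isomorphism of
subgroups which, together with its inverse, extends to endomorphisms.

Parts (2) and (3) concern functors. An endomorphism `f` of an object `c` of a category over the
finite sets has a power which is idempotent on the underlying finite set; hence `A f` is periodic, up
to inner automorphisms, and its mapping torus can be realized. If `A` is a simplicial group and `L` a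
linear order then `Ev A L` is the direct limit of the groups `A_m` over the monotone maps from `L` to
`{0, …, m}`. For the pure braid groups, with deletion and doubling of strands, and the set `L` of the
dyadic rational numbers in `[0, 1)`, the semidirect product of `Ev A L` with Thompson's group `F`
contains the braided Thompson group `BF`.
-/

set_option autoImplicit false

namespace Pool.Agent.Results.MP_c052b4_al.EndomorphismKernels

open CategoryTheory
open Q184.FJE (LocEnd LocFun CFun Crossed Ev ActsBy IsPull)
open Pool.Agent.Y110.FJ (ClosedE)
open Q30.FJ (ClosedOver)

/-- Let `C` be a class of groups with the closure properties `ClosedE C` and let `D` be closed under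
subgroups and satisfy the extension principle over `C`. Let `K` be a normal subgroup of `G` such that
`G ⧸ K` is in `D`. In each of the following cases `G` is in `D`.

(1) For each `g` in `G` and each finite `E ⊆ K` there are `n` in `K`, a homomorphism `f` from `K` to
a group `M` in `C` and endomorphisms `α`, `β` of `M` such that, with `u = n g`, `f` is injective on
the subgroup generated by `E`, `n` and `u E u⁻¹`, `α (f x) = f (u x u⁻¹)` and
`β (f (u x u⁻¹)) = f x` for `x` in `E`, and the mapping tori of `α` and `β` are realized in `C`.

(2) `A` is a contravariant functor, with values in `C`, on a category `𝓧` over the finite sets; the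
endomorphisms in `𝓧` factor into a morphism which is surjective on the finite sets and a split
monomorphism, and `A e` is inner for each endomorphism `e` over the identity (`Crossed U A`). For
each `g` in `G` and each finite `E ⊆ K` there are `n` in `K`, an object `c` and homomorphisms
`r : K → A c` and `i : A c → K` such that `i (r x) = x` for `x` in `E` and the endomorphisms
`x ↦ r (u (i x) u⁻¹)` and `x ↦ r (u⁻¹ (i x) u)` of `A c`, with `u = n g`, are of the form `A f` and
`A f'` for endomorphisms `f` and `f'` of `c`.

(3) `K` is isomorphic, by `e`, to the value `Ev A L` of a simplicial group `A`, with all `A_n` in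
`C`, on a linear order `L`, and for each `g` in `G` there are `n` in `K` and an order automorphism
`γ` of `L` such that the conjugation by `n g` corresponds to the pullback of families along `γ`. In
particular, if `Γ` is a group in `D` and `θ` is an action of `Γ` on `L` by order automorphisms then
the semidirect product of `Ev A L` and `Γ`, for the action `φ` by pullbacks, is in `D`. -/
theorem result (C D : ∀ (G : Type) [Group G], Prop) (hC : ClosedE C) (hD : ClosedOver C D) :
    (∀ (G : Type) [Group G] (K : Subgroup G) [K.Normal], D (G ⧸ K) →
      ((∀ (g : G) (E : Set K), E.Finite → LocEnd C K g E) → D G) ∧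
      ∀ (𝓧 : Type) [SmallCategory 𝓧] (U : 𝓧 ⥤ Type) (A : CFun 𝓧), Crossed U A →
        (∀ c : 𝓧, C (A.obj c)) → (∀ (g : G) (E : Set K), E.Finite → LocFun A K g E) → D G) ∧
    ∀ A : CFun SimplexCategory, (∀ n : ℕ, C (A.obj (SimplexCategory.mk n))) →
      ∀ (L : Type) [LinearOrder L],
        (∀ (G : Type) [Group G] (K : Subgroup G) [K.Normal] (e : Ev A L ≃* K), D (G ⧸ K) →
          (∀ g : G, ∃ (n : K) (γ : L ≃o L), ActsBy e (n * g) γ) → D G) ∧
        ∀ (Γ : Type) [Group Γ] (θ : Γ →* (L ≃o L)), ∃ φ : Γ →* MulAut (Ev A L),
          (∀ (γ : Γ) (x : Ev A L), IsPull (θ γ⁻¹ : L →o L) x (φ γ x)) ∧
            (D Γ → D (Ev A L ⋊[φ] Γ)) :=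
  ⟨fun G _ K _ hQ => ⟨fun h => Q184.FJE.crit_end hC hD G K hQ h,
    fun _ _ _ _ hX hA h => Q184.FJE.fun_over hC hD hX hA G K hQ h⟩,
    fun _ hA _ _ => ⟨fun G _ K _ e hQ h => Q184.FJE.ev_over hC hD hA G K e hQ h,
      fun Γ _ θ => Q184.FJE.sd_ev hC hD hA Γ θ⟩⟩

end Pool.Agent.Results.MP_c052b4_al.EndomorphismKernels
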