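import Pool.Agent.Q182.AnPer

/-!
# Groups acting on trees: local conditions on classes of edges

`C` is any class of groups which contains the metabelian groups and has the closure properties
`ClosedA C`: the usual closure properties `ClosedE C` and closure under acylindrical actions on
trees. All of this is known for the class of the groups which satisfy the K-theoretic Farrell–Jones
conjecture with additive category coefficients and finite wreath products (solvable groups: Wegner,
acylindrical actions: Knopf).

Let `G` act without inversions on a tree with vertex stabilizers `G_v` in `C`, and let `ρ` be a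
homomorphism from `G` to a group in `C` (one may take the trivial one). At each vertex an equivalence
relation `R v` on the edges at this vertex is given, in an invariant way, such that two edges are
related if their stabilizers have an infinite intersection, and only edges with infinite stabilizers
are related to other edges. So in the following conditions edges which are not related do not interact.

1. For each edge `e` at `v` let `K` and `L` be subgroups of `G_v`, contained in the kernel of `ρ` and in
the stabilizer `H` of the class of `e`, which depend only on the class of `e` and on `v`, and are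
invariant under `G`. Suppose for infinite `G_e` that `H ⧸ K` and `H ⧸ L` are in `C`, and that the
intersection of `G_e` and the kernel of `ρ` is contained in `K`, meets `L` trivially and its
commutators with elements of `K` are in `L`. Then `G` is in `C`.

2. Suppose that for each class of edges at `v` with infinite stabilizers the elements of the kernel of
`ρ` which fix one of these edges commute with each other, and that the group of automorphisms induced
by `H` on the group generated by these elements is in `C`. Then `G` is in `C`.

3. Suppose that each `G_v` has a family of subgroups `A`, invariant under conjugation, such that two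
different ones have a finite intersection, each infinite stabilizer of an edge at `v` is contained in
one of them, `N(A) ⧸ A` is in `C`, and for `B`, the intersection of `A` and the kernel of `ρ`, the
commutator subgroup of `B` meets the stabilizers of the edges trivially. Then `G` is in `C`. For
instance `G_v` can be relatively hyperbolic with peripheral subgroups `A`, and infinite edge
stabilizers contained in peripheral subgroups `A` so that they embed in the abelianization of `A`.

Outline of the proof. The relations generate an equivalence relation on the set of edges, and coning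
off its classes we obtain an acylindrical action on a tree. So it suffices that the stabilizers of the
classes are in `C`. Two edges at `v` in the same class are related at `v`, and hence our theorem
`MP_6374fb_al.LocalKernels` applies to the action of the stabilizer of a class on the class.
-/

set_option autoImplicit false

namespace Pool.Agent.Results.MP_c052b4_al.PeripheralEdges

open Q182.Cyl (ClosedA Est)
open scoped commutatorElement

/-- Let `C` be a class of groups with the closure properties `ClosedA C` which contains all
metabelian groups. Let `G` be a group acting without inversions on a tree with vertex stabilizers in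
`C`, and let `ρ` be a homomorphism from `G` to a group `D` in `C`.

Part I: Let `R v` be equivalence relations on the sets of neighbours of the vertices `v`, invariant
under `G`, such that `R v w w'` holds if the stabilizers of the edges `{v, w}` and `{v, w'}` have an
infinite intersection, and only if `w = w'` or the stabilizer of `{v, w}` is infinite. Then `G` is in
`C` if (1) or (2) holds.

(1) `K v w` and `L v w`, for the edges `{v, w}`, are subgroups which fix `v`, with `L v w ≤ K v w`; the
elements `k` of `K v w` are in the kernel of `ρ`, and `R v w (k w)`. Both are invariant under `G` and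
depend only on `v` and the class of `w`. If the stabilizer of `{v, w}` is infinite then its elements in
the kernel of `ρ` are in `K v w`, the commutators of these with elements of `K v w` are in `L v w`, only
the identity of `L v w` fixes `w`, and the quotients of the group of all `g` with `g v = v` and
`R v w (g w)` by `K v w` and by `L v w` are in `C`.

(2) If the stabilizer of `{v, w}` is infinite then the elements of the kernel of `ρ` which fix `v` and
one of the vertices `w'` with `R v w w'` commute with each other, and the quotient of the group of all
`g` with `g v = v` and `R v w (g w)` by the centralizer of the set of these elements is in `C`.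

Part II: Let `P v`, for the vertices `v`, be sets of subgroups of the stabilizer of `v`, invariant
under `G`, such that two different members of `P v` have a finite intersection, and each infinite
stabilizer of an edge at `v` is contained in a member of `P v`. Suppose for each `A` in `P v` that the
quotient of the normalizer of `A` in the stabilizer of `v` by `A` is in `C`, and that for each infinite
stabilizer of an edge `{v, w}` contained in `A` no element other than the identity of the commutator
subgroup of the intersection of `A` and the kernel of `ρ` fixes `w`. Then `G` is in `C`. -/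
theorem result (C : ∀ (G : Type) [Group G], Prop) (hC : ClosedA C)
    (hmet : ∀ (G : Type) [Group G], derivedSeries G 2 = ⊥ → C G)
    (G D V : Type) [Group G] [Group D] [MulAction G V] (T : SimpleGraph V) (hT : T.IsTree)
    (hadj : ∀ (g : G) (v w : V), T.Adj v w → T.Adj (g • v) (g • w))
    (hinv : ∀ (g : G) (v w : V), T.Adj v w → ¬ (g • v = w ∧ g • w = v))
    (hst : ∀ v : V, C (MulAction.stabilizer G v)) (ρ : G →* D) (hD : C D) :
    (∀ R : V → V → V → Prop,
      (∀ v w, T.Adj v w → R v w w) → (∀ v w w', R v w w' → R v w' w) →
      (∀ v w w' w'', R v w w' → R v w' w'' → R v w w'') →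
      (∀ (g : G) v w w', R v w w' → R (g • v) (g • w) (g • w')) →
      (∀ v w w', T.Adj v w → T.Adj v w' → Infinite ↥(Est G v w ⊓ Est G v w') → R v w w') →
      (∀ v w w', R v w w' → w = w' ∨ Infinite (Est G v w)) →
      ((∀ K L : V → V → Subgroup G,
        (∀ v w, T.Adj v w → ∀ k ∈ K v w, k • v = v ∧ R v w (k • w) ∧ ρ k = 1) →
        (∀ v w, T.Adj v w → L v w ≤ K v w) →
        (∀ (g : G) (v w : V), T.Adj v w → ∀ k ∈ K v w, g * k * g⁻¹ ∈ K (g • v) (g • w)) →
        (∀ (g : G) (v w : V), T.Adj v w → ∀ k ∈ L v w, g * k * g⁻¹ ∈ L (g • v) (g • w)) →
        (∀ v w w', T.Adj v w → T.Adj v w' → R v w w' → K v w ≤ K v w') →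
        (∀ v w w', T.Adj v w → T.Adj v w' → R v w w' → L v w ≤ L v w') →
        (∀ v w, T.Adj v w → Infinite (Est G v w) →
          (∀ s : G, ρ s = 1 → s • v = v → s • w = w → s ∈ K v w) ∧
          (∀ s ∈ K v w, s • w = w → ∀ k ∈ K v w, s * k * s⁻¹ * k⁻¹ ∈ L v w) ∧
          (∀ s ∈ L v w, s • w = w → s = 1) ∧
          (∃ (H : Subgroup G) (Q : Type) (_ : Group Q) (φ : H →* Q), C Q ∧
            (∀ g : G, g • v = v → R v w (g • w) → g ∈ H) ∧
            ∀ s : H, (s : G) • v = v → R v w ((s : G) • w) → (φ s = 1 ↔ (s : G) ∈ K v w)) ∧
          (∃ (H : Subgroup G) (Q : Type) (_ : Group Q) (φ : H →* Q), C Q ∧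
            (∀ g : G, g • v = v → R v w (g • w) → g ∈ H) ∧
            ∀ s : H, (s : G) • v = v → R v w ((s : G) • w) → (φ s = 1 ↔ (s : G) ∈ L v w))) →
        C G) ∧
      ((∀ v w, T.Adj v w → Infinite (Est G v w) →
          (∀ w', T.Adj v w' → R v w w' → ∀ s s' : G, ρ s = 1 → ρ s' = 1 → s • v = v → s • w = w →
            s' • v = v → s' • w' = w' → s * s' = s' * s) ∧
          ∃ (H : Subgroup G) (Q : Type) (_ : Group Q) (φ : H →* Q), C Q ∧
            (∀ g : G, g • v = v → R v w (g • w) → g ∈ H) ∧
            ∀ g : H, (g : G) • v = v → R v w ((g : G) • w) → (φ g = 1 ↔ ∀ w', T.Adj v w' →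
              R v w w' → ∀ s : G, ρ s = 1 → s • v = v → s • w' = w' → (g : G) * s = s * g)) →
        C G))) ∧
    (∀ P : V → Subgroup G → Prop,
      (∀ v A, P v A → ∀ a ∈ A, a • v = v) →
      (∀ (g : G) v A, P v A → P (g • v) (A.map (MulAut.conj g).toMonoidHom)) →
      (∀ v A B, P v A → P v B → A ≠ B → Finite ↥(A ⊓ B)) →
      (∀ v w, T.Adj v w → Infinite (Est G v w) → ∃ A, P v A ∧ Est G v w ≤ A) →
      (∀ v w A, T.Adj v w → Infinite (Est G v w) → P v A → Est G v w ≤ A →
        ∀ s ∈ ⁅A ⊓ ρ.ker, A ⊓ ρ.ker⁆, s • w = w → s = 1) →
      (∀ v A, P v A → ∃ (H : Subgroup G) (Q : Type) (_ : Group Q) (φ : H →* Q), C Q ∧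
        (∀ g : G, g • v = v → A.map (MulAut.conj g).toMonoidHom = A → g ∈ H) ∧
        ∀ s : H, (s : G) • v = v → A.map (MulAut.conj (s : G)).toMonoidHom = A →
          (φ s = 1 ↔ (s : G) ∈ A)) → C G) := by
  have hA : Pool.Agent.Helper270.Tree.TreeAct G T := ⟨hT, hadj, hinv⟩
  refine ⟨?_, ?_⟩
  · intro R hrefl hsymm htrans hsmul hI hO
    have hR : Q182.An.Ang G T R := ⟨hrefl, hsymm, htrans, hsmul⟩
    refine ⟨?_, ?_⟩
    · intro K L h1 h2 h3 h4 h5 h6 h7
      exact Q182.An.main_loc hR hA hC hmet hI hO ρ hD
        ⟨h1, h2, h3, h4, h5, h6, fun v w h hi => (h7 v w h hi).1,
          fun v w h hi => (h7 v w h hi).2.1, fun v w h hi => (h7 v w h hi).2.2.1⟩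
        (fun v w h hi => (h7 v w h hi).2.2.2.1) (fun v w h hi => (h7 v w h hi).2.2.2.2) hst
    · intro h
      exact Q182.An.main_comm hR hA hC hmet hI hO ρ hD
        (fun v w w' h1 h2 h3 h4 => (h v w h1 h4).1 w' h2 h3) (fun v w h1 h4 => (h v w h1 h4).2) hst
  · intro P h1 h2 h3 h4 h5 h6
    exact Q182.An.main_per hA hC hmet ρ hD P h1 h2 h3 h4 h5 h6 hst

end Pool.Agent.Results.MP_c052b4_al.PeripheralEdges
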