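import Pool.Agent.Q182.RetTor

/-!
# HNN extensions along isomorphisms of retracts

`C` is any class of groups with the closure properties `ClosedE C`, all of which are known for the
class of the groups that satisfy the Full Farrell–Jones Conjecture; for its torsion-free members and
regular rings the assembly maps are isomorphisms. This class contains all solvable groups (Wegner).

Outline of the proof. Let the isomorphism `φ : A → B` be the restriction of an endomorphism `α` of
`M`, and let its inverse be the restriction of an endomorphism `β`. Send `m` to the sequence
`…, α(α(m)), α(m), m, β(m), β(β(m)), …` and the stable letter to the shift. The sequences `x` with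
`x(n+1) = β(x(n))` for all large `n` and `x(n-1) = α(x(n))` for all small `n` form, with the shift, a
group which modulo the sequences of finite support embeds in a product of mapping tori of `α` and
`β`; it is in `C`, and the homomorphism is injective on `M`.
-/

set_option autoImplicit false

namespace Pool.Agent.Results.MP_c052b4_al.RetractHNN

open Pool.Agent.Y110.FJ (ClosedE)
open Q182.RetHNN (Torus)

/-- Let `C` be a class of groups with the closure properties `ClosedE C`, let `M` be a group in `C`
and let `φ : A → B` be an isomorphism of subgroups of `M`.

(1) If `φ` and its inverse are restrictions of endomorphisms `α` and `β` of `M` whose mapping tori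
are realized in `C`, then the HNN extension of `M` by `φ` is in `C`.

(2) Let `A` and `B` be retracts of `M` with retractions `rA` and `rB`. If the mapping tori of the
endomorphisms `φ ∘ rA` of `B` and `φ⁻¹ ∘ rB` of `A` are realized in `C`, then the HNN extension of `M`
by `φ` is in `C`.

(3) If `C` contains the solvable groups and `A` and `B` are solvable retracts of `M`, then the HNN
extension of `M` by `φ` is in `C`.

(4) If `A` and `B` are retracts of `M`, with retractions trivial on `B` and `A` respectively, then the
HNN extension of `M` by `φ` is in `C`. -/
theorem result (C : ∀ (G : Type) [Group G], Prop) (hC : ClosedE C) (M : Type) [Group M]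
    (hM : C M) (A B : Subgroup M) (φ : A ≃* B) :
    (∀ α β : M →* M, (∀ a : A, α a = φ a) → (∀ a : A, β (φ a) = a) → Torus C α → Torus C β →
      C (HNNExtension M A B φ)) ∧
    (∀ (rA : M →* A) (rB : M →* B), (∀ a : A, rA a = a) → (∀ b : B, rB b = b) →
      Torus C ((φ.toMonoidHom.comp rA).comp B.subtype) →
      Torus C ((φ.symm.toMonoidHom.comp rB).comp A.subtype) → C (HNNExtension M A B φ)) ∧
    ((∀ (G : Type) [Group G], Group.IsSolvable G → C G) → Group.IsSolvable A →
      ∀ (rA : M →* A) (rB : M →* B), (∀ a : A, rA a = a) → (∀ b : B, rB b = b) →
      C (HNNExtension M A B φ)) ∧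
    (∀ (rA : M →* A) (rB : M →* B), (∀ a : A, rA a = a) → (∀ b : B, rB b = b) →
      (∀ b : B, rA b = 1) → (∀ a : A, rB a = 1) → C (HNNExtension M A B φ)) :=
  ⟨fun α β hα hβ h1 h2 => Q182.RetHNN.hnn_ext α β hC hM A B φ hα hβ h1 h2,
    fun rA rB hA hB h1 h2 => Q182.RetHNN.retract φ rA rB hC hM hA hB h1 h2,
    fun hsol hs rA rB hA hB => Q182.RetHNN.retract_solvable φ rA rB hC hsol hM hA hB hs,
    fun rA rB hA hB h1 h2 => Q182.RetHNN.retract_orth φ rA rB hC hM hA hB h1 h2⟩

end Pool.Agent.Results.MP_c052b4_al.RetractHNN
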